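import Pool.Agent.Lib_helper41.TK.Defs2
import Pool.Agent.Lib_helper68.KSLF.SCH

/-! TK, block FH. -/

set_option autoImplicit false

namespace Pool.Agent.TK

open Pool.Agent.LEV Pool.Agent.LVB Pool.Agent.KSL
open Pool.Agent.LK (PQ)
open Pool.Agent.FG61 (mu phi cc ff AA Lam)
open Complex MeasureTheory Filter Topology UpperHalfPlane ModularGroup ProbabilityTheory
open scoped MatrixGroups Modular ENNReal ModularForm ComplexConjugate ContDiff

lemma fh_young {t b : ℝ} (ht : 0 < t) : |b| ≤ t / 2 + b ^ 2 / (2 * t) := by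
  have h1 : 0 ≤ (t - |b|) ^ 2 := sq_nonneg _
  have h2 : |b| ^ 2 = b ^ 2 := sq_abs b
  have h3 : t / 2 + b ^ 2 / (2 * t) = (t ^ 2 + b ^ 2) / (2 * t) := by
    field_simp
  rw [h3, le_div_iff₀ (by positivity)]
  nlinarith

/-- the test polynomial -/
theorem s_choiceC (A : Finset ℕ) (c : ℕ → ℝ) (hA : ∀ a ∈ A, 1 ≤ a) (hc : ∀ a, 0 ≤ c a) {ε : ℝ}
    (hε : 0 < ε) : ∃ (X : ℕ) (s : ℕ → ℝ), (∀ m, s m ≠ 0 → 1 ≤ m ∧ m ≤ X) ∧
      |∑ m ∈ Finset.Icc 1 X, s m ^ 2 - ∑ a ∈ A, c a| ≤ ε ∧ ∃ N₀ : ℕ, ∀ (N : ℕ) [Fact N.Prime],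
        N₀ ≤ N → ∀ {ι : Type} [Fintype ι] (f : ι → S2 N), AllNew f →
          ∑ i, om (f i) * |(∑ m ∈ Finset.Icc 1 X, s m * Um m (la (f i))) ^ 2 -
            Hd A c (la (f i))| ≤ ε := by
  classical
  set e1 : ℝ := ε ^ 2 / 4 with he
  have he0 : 0 < e1 := by positivity
  obtain ⟨I, X, R, hI, hAI, hR, hRP⟩ := root_poly A c hA hc he0
  have hR2 := sch_sq hI hR
  have hHd := sch_hd c hI hA hAI
  set Y : ℕ := X * X + ∑ a ∈ A, a * a with hY
  have hD : HPoly I Y (fun x => R x ^ 2 - Hd A c x) := by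
    have h1 := hpoly_add (hpoly_mono (Nat.le_add_right (X * X) (∑ a ∈ A, a * a)) hR2)
      (hpoly_smul (hpoly_mono (Nat.le_add_left (∑ a ∈ A, a * a) (X * X)) hHd) (-1))
    obtain ⟨d, hd, hdx⟩ := h1
    refine ⟨d, hd, fun x => ?_⟩
    rw [← hdx x]
    ring
  have hD2 := sch_sq hI hD
  obtain ⟨P, hP⟩ := st_exists I hI
  have hprob := hP.prob
  obtain ⟨s, hs, hsx⟩ := id hR
  refine ⟨X, s, fun m hm => ⟨(hs m hm).1, (hs m hm).2.1⟩, ?_, ?_⟩
  · have h3 := st_sq hI hP (X := X) (c := s) hs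
    have h4 : ∀ x, (∑ m ∈ Finset.Icc 1 X, s m * Um m x) ^ 2 = R x ^ 2 := by
      intro x
      rw [hsx x]
    simp_rw [h4] at h3
    rw [← h3, ← sch_hd_mean c hI hA hAI hP]
    have hi1 : Integrable (fun x => R x ^ 2) P := sch_int (le_refl I) hP hR2
    have hi2 : Integrable (Hd A c) P := sch_int (le_refl I) hP hHd
    have hi3 : Integrable (fun x => (R x ^ 2 - Hd A c x) ^ 2) P := sch_int (le_refl I) hP hD2
    rw [← integral_sub hi1 hi2]
    refine abs_integral_le_integral_abs.trans ?_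
    have h9 : ∫ x, |R x ^ 2 - Hd A c x| ∂P ≤
        ∫ x, (ε / 2 + (R x ^ 2 - Hd A c x) ^ 2 / (2 * ε)) ∂P := by
      refine integral_mono (hi1.sub hi2).abs ((integrable_const _).add (hi3.div_const _)) ?_
      intro x
      exact fh_young hε
    refine h9.trans ?_
    rw [integral_add (integrable_const _) (hi3.div_const _), integral_const, integral_div]
    have h15 : (∫ x, (R x ^ 2 - Hd A c x) ^ 2 ∂P) / (2 * ε) ≤ ε / 2 := by
      rw [div_le_iff₀ (by positivity)]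
      refine (hRP P hP).trans ?_
      rw [he]
      nlinarith [sq_nonneg ε]
    have h16 : P.real Set.univ = 1 := by
      simp
    rw [h16, one_smul]
    linarith
  · obtain ⟨N₀, hN₀⟩ := sch_ka (a := 1 / 4) (b := 1 / 2) (by norm_num) (by norm_num) (Y + 1)
    have hlen : ∀ N : ℕ, N₀ + 1 ≤ N → Y + 1 ≤ KA (1 / 2) N := by
      intro N hN
      have h3 := hN₀ N (by omega)
      have h4 : 1 ≤ KA (1 / 4) N := by
        unfold KA
        refine Nat.le_floor ?_
        push_cast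
        have : (1 : ℝ) ≤ N := by
          have : 1 ≤ N := by omega
          exact_mod_cast this
        exact Real.one_le_rpow this (by norm_num)
      calc Y + 1 = 1 * (Y + 1) := (one_mul _).symm
        _ ≤ KA (1 / 4) N * (Y + 1) := Nat.mul_le_mul_right (Y + 1) h4
        _ ≤ KA (1 / 2) N := h3
    obtain ⟨N₁, hN₁⟩ := sch_transfer (fun _ => Y + 1) ⟨N₀ + 1, hlen⟩
    refine ⟨N₁ + ∑ p ∈ I, p + 1, fun N _ hN ι _ f hf => ?_⟩
    have hIN : ∀ p ∈ I, p.Prime ∧ p < N := by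
      intro p hp
      have h1 : p ≤ ∑ p ∈ I, p := Finset.single_le_sum (f := fun p => p) (fun _ _ => Nat.zero_le _) hp
      exact ⟨hI p hp, by omega⟩
    have h1 := hN₁ N (by omega) f hf hIN hP (hpoly_mono (Nat.le_succ Y) hD)
    have h2 := hN₁ N (by omega) f hf hIN hP (hpoly_mono (Nat.le_add_left 1 Y) (rpo_one I))
    have h3 : ∑ i, om (f i) ≤ 2 := by
      have h4 : ∀ i, om (f i) * (1 : ℝ) ^ 2 = om (f i) := fun i => by ring
      simp only [h4] at h2
      refine h2.trans ?_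
      simp
    have h5 : ∑ i, om (f i) * (R (la (f i)) ^ 2 - Hd A c (la (f i))) ^ 2 ≤ 2 * e1 :=
      h1.trans (mul_le_mul_of_nonneg_left (hRP P hP) (by norm_num))
    have hterm : ∀ i, om (f i) * |(∑ m ∈ Finset.Icc 1 X, s m * Um m (la (f i))) ^ 2 -
          Hd A c (la (f i))| ≤ (ε / 4) * om (f i) +
          (1 / ε) * (om (f i) * (R (la (f i)) ^ 2 - Hd A c (la (f i))) ^ 2) := by
      intro i
      rw [← hsx]
      have h6 := fh_young (t := ε / 2) (b := R (la (f i)) ^ 2 - Hd A c (la (f i))) (by linarith)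
      calc om (f i) * |R (la (f i)) ^ 2 - Hd A c (la (f i))| ≤ om (f i) *
            (ε / 2 / 2 + (R (la (f i)) ^ 2 - Hd A c (la (f i))) ^ 2 / (2 * (ε / 2))) :=
            mul_le_mul_of_nonneg_left h6 (sch_om (f i))
        _ = _ := by field_simp; ring
    refine (Finset.sum_le_sum (fun i _ => hterm i)).trans ?_
    rw [Finset.sum_add_distrib, ← Finset.mul_sum, ← Finset.mul_sum]
    have h6 : (ε / 4) * ∑ i, om (f i) ≤ (ε / 4) * 2 :=
      mul_le_mul_of_nonneg_left h3 (by linarith)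
    have h7 : (1 / ε) * ∑ i, om (f i) * (R (la (f i)) ^ 2 - Hd A c (la (f i))) ^ 2 ≤
        (1 / ε) * (2 * e1) := mul_le_mul_of_nonneg_left h5 (by positivity)
    have h8 : (1 / ε) * (2 * e1) = ε / 2 := by
      rw [he]
      field_simp
      ring
    linarith

end Pool.Agent.TK
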