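import Pool.Agent.Lib_helper41.TK.W.FF
import Pool.Agent.Lib_helper41.TK.W.FG
import Pool.Agent.Lib_helper41.TK.W.FI
import Pool.Agent.Lib_helper68.KSLF.SCH
import Pool.Agent.Lib_helper68.KSLF.FIC

/-! TK, block FJ. -/

set_option autoImplicit false

namespace Pool.Agent.TK

open Pool.Agent.LEV Pool.Agent.LVB Pool.Agent.KSL
open Pool.Agent.LK (PQ)
open Pool.Agent.FG61 (mu phi cc ff AA Lam)
open Complex MeasureTheory Filter Topology UpperHalfPlane ModularGroup ProbabilityTheory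
open scoped MatrixGroups Modular ENNReal ModularForm ComplexConjugate ContDiff

/-- the second moment of the weight -/
lemma fj_mom (A : Finset ℕ) (c : ℕ → ℝ) (hA : ∀ a ∈ A, 1 ≤ a) :
    ∃ (C : ℝ) (N₀ : ℕ), 0 ≤ C ∧ ∀ (N : ℕ) [Fact N.Prime],
    N₀ ≤ N → ∀ {ι : Type} [Fintype ι] (f : ι → S2 N), AllNew f →
      ∑ i, om (f i) * Hd A c (la (f i)) ^ 2 ≤ C := by
  classical
  set I : Finset ℕ := A.biUnion Nat.primeFactors with hIdef
  have hI : ∀ p ∈ I, p.Prime := by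
    intro p hp
    obtain ⟨a, _, hpa⟩ := Finset.mem_biUnion.mp hp
    exact Nat.prime_of_mem_primeFactors hpa
  have hAI : ∀ a ∈ A, a.primeFactors ⊆ I := fun a ha => Finset.subset_biUnion_of_mem _ ha
  have hHd := sch_hd c hI hA hAI
  set Y : ℕ := ∑ a ∈ A, a * a with hY
  obtain ⟨P, hP⟩ := st_exists I hI
  obtain ⟨N₀, hN₀⟩ := sch_ka (a := 1 / 4) (b := 1 / 2) (by norm_num) (by norm_num) (Y + 1)
  have hlen : ∀ N : ℕ, N₀ + 1 ≤ N → Y + 1 ≤ KA (1 / 2) N := by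
    intro N hN
    have h3 := hN₀ N (by omega)
    have h4 : 1 ≤ KA (1 / 4) N := by
      unfold KA
      refine Nat.le_floor ?_
      push_cast
      have : (1 : ℝ) ≤ N := by
        have : 1 ≤ N := by omega
        exact_mod_cast this
      exact Real.one_le_rpow this (by norm_num)
    calc Y + 1 = 1 * (Y + 1) := (one_mul _).symm
      _ ≤ KA (1 / 4) N * (Y + 1) := Nat.mul_le_mul_right (Y + 1) h4
      _ ≤ KA (1 / 2) N := h3
  obtain ⟨N₁, hN₁⟩ := sch_transfer (fun _ => Y + 1) ⟨N₀ + 1, hlen⟩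
  refine ⟨2 * ∫ x, Hd A c x ^ 2 ∂P, N₁ + ∑ p ∈ I, p + 1, ?_, fun N _ hN ι _ f hf => ?_⟩
  · have : 0 ≤ ∫ x, Hd A c x ^ 2 ∂P := integral_nonneg (fun x => sq_nonneg _)
    positivity
  · have hIN : ∀ p ∈ I, p.Prime ∧ p < N := by
      intro p hp
      have h1 : p ≤ ∑ p ∈ I, p := Finset.single_le_sum (f := fun p => p) (fun _ _ => Nat.zero_le _) hp
      exact ⟨hI p hp, by omega⟩
    exact hN₁ N (by omega) f hf hIN hP (hpoly_mono (Nat.le_succ Y) hHd)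

/-- the mass of a small set -/
lemma fj_small {ι : Type} [Fintype ι] (o S : ι → ℝ) (ho : ∀ i, 0 ≤ o i) {e C : ℝ}
    (he : 0 ≤ e) (t : Finset ι) (h1 : ∑ i ∈ t, o i ≤ e) (h2 : ∑ i, o i * S i ^ 2 ≤ C) :
    ∑ i ∈ t, o i * S i ≤ Real.sqrt (e * C) := by
  classical
  apply Real.le_sqrt_of_sq_le
  have := Finset.sum_mul_sq_le_sq_mul_sq t (fun i => Real.sqrt (o i))
    (fun i => Real.sqrt (o i) * S i)
  have h4 : ∀ i, Real.sqrt (o i) * (Real.sqrt (o i) * S i) = o i * S i := by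
    intro i
    calc _ = (Real.sqrt (o i) * Real.sqrt (o i)) * (S i) := by ring
      _ = _ := by rw [Real.mul_self_sqrt (ho i)]
  have h5 : ∀ i, (Real.sqrt (o i) * S i) ^ 2 = o i * S i ^ 2 := by
    intro i
    rw [mul_pow, Real.sq_sqrt (ho i)]
  have h6 : ∀ i, Real.sqrt (o i) ^ 2 = o i := fun i => Real.sq_sqrt (ho i)
  simp only [h4, h5, h6] at this
  refine this.trans ?_
  have h7 : ∑ i ∈ t, o i * S i ^ 2 ≤ C := by
    refine le_trans ?_ h2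
    apply Finset.sum_le_sum_of_subset_of_nonneg (Finset.subset_univ _)
    intro i _ _
    exact mul_nonneg (ho i) (sq_nonneg _)
  exact mul_le_mul h1 h7 (Finset.sum_nonneg fun i _ => mul_nonneg (ho i) (sq_nonneg _)) he

/-- from the mollified values to the values -/
lemma fj_low {κ δ L l b m : ℝ} (hκ : 0 < κ) (hL : 0 < L) (hκL : 1 ≤ κ * L ^ (δ / 2))
    (hb0 : 0 ≤ b) (hb : b ≤ L ^ (1 / 2 + δ / 4)) (hm0 : 0 ≤ m) (hm : m ≤ L ^ (δ / 4))
    (hl0 : 0 ≤ l) (hl : κ ≤ l * b * m) : L ^ (-(1 / 2 + δ)) ≤ l := by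
  have h1 : l * b * m ≤ l * L ^ (1 / 2 + δ / 4) * L ^ (δ / 4) :=
    mul_le_mul (mul_le_mul_of_nonneg_left hb hl0) hm hm0 (by positivity)
  have h2 : κ ≤ l * L ^ (1 / 2 + δ / 2) := by
    refine (hl.trans h1).trans (le_of_eq ?_)
    rw [mul_assoc, ← Real.rpow_add hL]
    congr 2
    ring
  have h3 : 1 ≤ l * L ^ (1 / 2 + δ) := by
    have h4 : l * L ^ (1 / 2 + δ / 2) * L ^ (δ / 2) = l * L ^ (1 / 2 + δ) := by
      rw [mul_assoc, ← Real.rpow_add hL]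
      congr 2
      ring
    rw [← h4]
    exact hκL.trans (mul_le_mul_of_nonneg_right h2 (by positivity))
  rw [Real.rpow_neg hL.le, inv_eq_one_div, div_le_iff₀ (by positivity)]
  exact h3

theorem final_harmC (A : Finset ℕ) (c : ℕ → ℝ) (hA : ∀ a ∈ A, 1 ≤ a) (hc : ∀ a, 0 ≤ c a) {ε : ℝ}
    (hε : 0 < ε) : ∃ κ₁ : ℝ, 0 < κ₁ ∧ ∀ δ : ℝ, 0 < δ → ∃ N₀ : ℕ, ∀ (N : ℕ) [Fact N.Prime],
    N₀ ≤ N → ∀ {ι : Type} [Fintype ι] (f : ι → S2 N), AllNew f → ∀ (q : ℕ) [NeZero q]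
    (χ : DirichletCharacter ℂ q), PQ χ → (q : ℝ) ≤ (N : ℝ) ^ κ₁ → χ (-(N : ZMod q)) = 1 →
    ∃ t : Finset ι,
      (∀ i ∈ t, co (f i) N = 1 ∧ Real.log N ^ (-(1 / 2 + δ)) ≤ |bx χ (f i)|) ∧
      1 / 4 * (∑ a ∈ A, c a) - ε ≤ ∑ i ∈ t, om (f i) * Hd A c (la (f i)) := by
  classical
  obtain ⟨A₁, κ, δ₀, κ₁, N₁, hκ, hδ₀, hδ₀4, hκ₁, hκ₁10, hm⟩ :=
    moll_halfC A c hA hc (ε := ε / 2) (by positivity)
  obtain ⟨C, N₂, hC, hN₂⟩ := fj_mom A c hA
  refine ⟨κ₁, hκ₁, fun δ hδ => ?_⟩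
  set e : ℝ := ε ^ 2 / (8 * (C + 1)) with he
  have he0 : 0 < e := by positivity
  have heC : 2 * e * C ≤ (ε / 2) ^ 2 := by
    have h1 : e * (8 * (C + 1)) = ε ^ 2 := by
      rw [he]
      field_simp
    nlinarith
  obtain ⟨N₃, hN₃⟩ := typ_bC A₁ (δ := δ / 4) (by positivity) he0
  obtain ⟨N₄, hN₄⟩ := typ_mC hδ₀ hδ₀4 (δ' := δ / 4) (by positivity) he0
  obtain ⟨N₅, hN₅⟩ := iz_split
  have hll : Tendsto (fun N : ℕ => κ * Real.log (N : ℝ) ^ (δ / 2)) atTop atTop :=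
    ((tendsto_rpow_atTop (by positivity)).comp
      (Real.tendsto_log_atTop.comp tendsto_natCast_atTop_atTop)).const_mul_atTop hκ
  obtain ⟨N₆, hN₆⟩ := Filter.eventually_atTop.mp (hll.eventually_ge_atTop 1)
  refine ⟨N₁ + N₂ + N₃ + N₄ + N₅ + N₆ + 3, fun N _ hN ι _ f hf q _ χ hχ hq hχN => ?_⟩
  have hi : Function.Injective f := hf.1
  have hn : ∀ i, IsNew (f i) := fun i => (hf.2 (f i)).mpr ⟨i, rfl⟩
  have hN1 : (1 : ℝ) < N := by
    have : 1 < N := by omega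
    exact_mod_cast this
  have hq10 : (q : ℝ) ≤ (N : ℝ) ^ (1 / 10 : ℝ) :=
    hq.trans (Real.rpow_le_rpow_of_exponent_le hN1.le hκ₁10)
  have hq1 : 1 ≤ q := Nat.one_le_iff_ne_zero.mpr (NeZero.ne q)
  have hNq : N ≤ N * q ^ 2 := Nat.le_mul_of_pos_right N (by positivity)
  obtain ⟨-, -, hIZ, -, -⟩ := hN₅ (N * q ^ 2) (by omega)
  obtain ⟨P, hP⟩ := st_exists ((IZ (N * q ^ 2)).filter (fun p => p ∣ q))
    (fun p hp => (hIZ p (Finset.mem_filter.mp hp).1).1)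
  obtain ⟨G, hG1, hG2⟩ := hm N (by omega) f hf q χ hχ hq hχN P hP
  have hL : 0 < Real.log N := Real.log_pos hN1
  set t₁ : Finset ι := Finset.univ.filter (fun i => Real.log N ^ (1 / 2 + δ / 4) <
    |∫ y, Bz A₁ (N * q ^ 2) (fun p => if p ∣ q then y p else lx χ (f i) p) *
      ∏ p ∈ (IZ (N * q ^ 2)).filter (fun p => p ∣ q), er p (y p) ∂P|) with ht₁
  set t₂ : Finset ι := Finset.univ.filter (fun i => Real.log N ^ (δ / 4) <
    |MrC q (zz (N * q ^ 2)) (MM δ₀ (N * q ^ 2)) 2 (lx χ (f i))|) with ht₂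
  have hb : ∑ i ∈ t₁, om (f i) ≤ e := hN₃ N (by omega) f hi hn q χ hχ hq10 P hP t₁ (fun i hi' => by
    rw [ht₁, Finset.mem_filter] at hi'; exact hi'.2)
  have hmm : ∑ i ∈ t₂, om (f i) ≤ e := hN₄ N (by omega) f hi hn q χ hχ hq10 t₂ (fun i hi' => by
    rw [ht₂, Finset.mem_filter] at hi'; exact hi'.2)
  have hbm : ∑ i ∈ t₁ ∪ t₂, om (f i) ≤ 2 * e := by
    have h1 : ∑ i ∈ t₁ ∪ t₂, om (f i) ≤ ∑ i ∈ t₁, om (f i) + ∑ i ∈ t₂, om (f i) := by
      rw [← Finset.sum_union_inter]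
      have : 0 ≤ ∑ i ∈ t₁ ∩ t₂, om (f i) := Finset.sum_nonneg fun i _ => sch_om _
      linarith
    linarith
  have hsm : ∑ i ∈ t₁ ∪ t₂, om (f i) * Hd A c (la (f i)) ≤ ε / 2 := by
    refine (fj_small (fun i => om (f i)) (fun i => Hd A c (la (f i))) (fun i => sch_om _)
      (by linarith) _ hbm (hN₂ N (by omega) f hf)).trans ?_
    rw [Real.sqrt_le_left (by positivity)]
    exact heC
  have hHd : ∀ i, 0 ≤ Hd A c (la (f i)) := fun i =>
    Finset.sum_nonneg fun a _ => mul_nonneg (hc a) (sq_nonneg _)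
  refine ⟨G.filter (fun i => i ∉ t₁ ∪ t₂), ?_, ?_⟩
  · intro i hit
    rw [Finset.mem_filter, Finset.mem_union] at hit
    obtain ⟨hiG, hit⟩ := hit
    push Not at hit
    obtain ⟨h1, h2⟩ := hG1 i hiG
    refine ⟨h1, ?_⟩
    have h3 : |∫ y, Bz A₁ (N * q ^ 2) (fun p => if p ∣ q then y p else lx χ (f i) p) *
      ∏ p ∈ (IZ (N * q ^ 2)).filter (fun p => p ∣ q), er p (y p) ∂P| ≤
        Real.log N ^ (1 / 2 + δ / 4) := by
      by_contra h
      push Not at h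
      exact hit.1 (by rw [ht₁, Finset.mem_filter]; exact ⟨Finset.mem_univ _, h⟩)
    have h4 : |MrC q (zz (N * q ^ 2)) (MM δ₀ (N * q ^ 2)) 2 (lx χ (f i))| ≤
        Real.log N ^ (δ / 4) := by
      by_contra h
      push Not at h
      exact hit.2 (by rw [ht₂, Finset.mem_filter]; exact ⟨Finset.mem_univ _, h⟩)
    exact fj_low hκ hL (hN₆ N (by omega)) (abs_nonneg _) h3 (abs_nonneg _) h4 (abs_nonneg _) h2
  · have h1 : ∑ i ∈ G, om (f i) * Hd A c (la (f i)) ≤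
        ∑ i ∈ G.filter (fun i => i ∉ t₁ ∪ t₂), om (f i) * Hd A c (la (f i)) +
        ∑ i ∈ t₁ ∪ t₂, om (f i) * Hd A c (la (f i)) := by
      rw [← Finset.sum_filter_add_sum_filter_not G (fun i => i ∉ t₁ ∪ t₂)]
      have h7 : ∑ i ∈ G.filter (fun i => ¬ i ∉ t₁ ∪ t₂), om (f i) * Hd A c (la (f i)) ≤
          ∑ i ∈ t₁ ∪ t₂, om (f i) * Hd A c (la (f i)) := by
        apply Finset.sum_le_sum_of_subset_of_nonneg
        · intro i hi'
          rw [Finset.mem_filter] at hi'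
          exact not_not.mp hi'.2
        · intro i _ _
          exact mul_nonneg (sch_om _) (hHd i)
      linarith
    linarith

end Pool.Agent.TK
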