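import Pool.Agent.Lib_helper41.TK.W.GA
import Pool.Agent.Lib_helper41.TK.W.GB
import Pool.Agent.Lib_helper68.KSLF.LSP

/-! TK, block GC. -/

set_option autoImplicit false

namespace Pool.Agent.TK

open Pool.Agent.LEV Pool.Agent.LVB Pool.Agent.KSL
open Pool.Agent.LK (PQ)
open Pool.Agent.FG61 (mu phi cc ff AA Lam)
open Complex MeasureTheory Filter Topology UpperHalfPlane ModularGroup ProbabilityTheory
open scoped MatrixGroups Modular ENNReal ModularForm ComplexConjugate ContDiff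

section
variable {N : ℕ} [Fact N.Prime]

theorem gl_split {T : ℝ} {ρ : ℝ → ℝ} (hρ : Ker T ρ) (g : S2 N) (Q : ℕ) (w : ℕ → ℕ → ℂ) :
    gl g Q w =
      (∫ z in {z : ℂ | 0 < z.im ∧ z.im < 2 / Real.sqrt N},
        g (UpperHalfPlane.ofComplex z) * gph N Q w ρ z.re z.im) +
      (∑' n : ℕ, co g n / (2 * Real.pi * n) *
        ((Real.exp (-2 * Real.pi * n * (2 / Real.sqrt N)) * sgm ρ (n * (2 / Real.sqrt N)) : ℝ) : ℂ) *
          gT Q w 0 n) +
      ∑ c ∈ Finset.Icc 1 Q, ∑ j ∈ RR c, w c j * bdf g ρ c ((j : ℝ) / c) := by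
  have hN : (0 : ℝ) < N := by exact_mod_cast (Fact.out : N.Prime).pos
  have hy : 0 < 2 / Real.sqrt N := by positivity
  rw [← gbulk_eq hρ g Q w, ← ghigh_eq hρ g Q w hy, ← Finset.sum_add_distrib,
    ← Finset.sum_add_distrib]
  unfold gl
  refine Finset.sum_congr rfl fun c hc => ?_
  rw [← Finset.sum_add_distrib, ← Finset.sum_add_distrib]
  refine Finset.sum_congr rfl fun j _ => ?_
  rw [← mul_add, ← mul_add]
  congr 1
  exact lsp_one hρ g (Finset.mem_Icc.1 hc).1 _

theorem gl_linear (Q : ℕ) (w : ℕ → ℕ → ℂ) : ∃ l : S2 N →ₗ[ℂ] ℂ, ∀ f : S2 N, l f = gl f Q w := by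
  refine ⟨{ toFun := fun f => gl f Q w, map_add' := ?_, map_smul' := ?_ }, fun f => rfl⟩
  · intro f g
    unfold gl
    rw [← Finset.sum_add_distrib]
    refine Finset.sum_congr rfl fun c hc => ?_
    rw [← Finset.sum_add_distrib]
    refine Finset.sum_congr rfl fun j _ => ?_
    rw [← mul_add]
    congr 1
    obtain ⟨h0, -⟩ := lsp_rq (N := N) c (Finset.mem_Icc.1 hc).1
    rw [← integral_add (GID_int f _ h0) (GID_int g _ h0)]
    rfl
  · intro a f
    unfold gl
    rw [RingHom.id_apply, smul_eq_mul, Finset.mul_sum]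
    refine Finset.sum_congr rfl fun c hc => ?_
    rw [Finset.mul_sum]
    refine Finset.sum_congr rfl fun j _ => ?_
    rw [mul_left_comm]
    congr 1
    rw [← integral_const_mul]
    rfl

end

end Pool.Agent.TK
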