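import Pool.Agent.Lib_helper41.TK.Defs
import Pool.Agent.Lib_helper68.KSLF.MBD

/-! TK, block GD. -/

set_option autoImplicit false

namespace Pool.Agent.TK

open Pool.Agent.LEV Pool.Agent.LVB Pool.Agent.KSL
open Pool.Agent.LK (PQ)
open Pool.Agent.FG61 (mu phi cc ff AA Lam)
open Complex MeasureTheory Filter Topology UpperHalfPlane ModularGroup ProbabilityTheory
open scoped MatrixGroups Modular ENNReal ModularForm ComplexConjugate ContDiff

theorem gd_ph (N Q : ℕ) (w : ℕ → ℕ → ℂ) (ρ : ℝ → ℝ) (x y : ℝ) :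
    gph N Q w ρ x y = ∑ c ∈ Finset.Icc 1 Q, if 2 * rq N c < y then
    ∑ j ∈ RR c, w c j * (((y⁻¹ * ρ ((x - (j : ℝ) / c) / y) : ℝ) : ℂ) *
      (1 - (((x - (j : ℝ) / c) / y : ℝ) : ℂ) * Complex.I)) else 0 := by
  unfold gph
  rw [Finset.sum_filter]

theorem gd_meas (N Q : ℕ) (w : ℕ → ℕ → ℂ) {ρ : ℝ → ℝ} (hρ : Continuous ρ) :
    Measurable (fun p : ℝ × ℝ => gph N Q w ρ p.1 p.2) := by
  simp only [gd_ph]
  refine Finset.measurable_sum _ fun c _ => ?_
  refine Measurable.ite (measurableSet_lt measurable_const measurable_snd) ?_ measurable_const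
  refine Finset.measurable_sum _ fun j _ => Measurable.const_mul ?_ _
  have h1 : Measurable (fun p : ℝ × ℝ => (p.1 - (j : ℝ) / c) / p.2) := by fun_prop
  have h2 : Measurable (fun p : ℝ × ℝ => ρ ((p.1 - (j : ℝ) / c) / p.2)) := hρ.measurable.comp h1
  have h3 : Measurable (fun p : ℝ × ℝ => p.2⁻¹) := by fun_prop
  exact (Complex.measurable_ofReal.comp (h3.mul h2)).mul
    (measurable_const.sub ((Complex.measurable_ofReal.comp h1).mul_const _))

theorem gd_supp {T : ℝ} {ρ : ℝ → ℝ} (hρ : Ker T ρ) {N Q : ℕ} {w : ℕ → ℕ → ℂ} {x y : ℝ}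
    (hy : 0 < y) (h : gph N Q w ρ x y ≠ 0) : ∃ c j : ℕ, 1 ≤ c ∧ c ≤ Q ∧ j ∈ RR c ∧
      2 * rq N c < y ∧ |x - (j : ℝ) / c| ≤ T * y := by
  unfold gph at h
  obtain ⟨c, hc, h1⟩ := Finset.exists_ne_zero_of_sum_ne_zero h
  obtain ⟨j, hj, h2⟩ := Finset.exists_ne_zero_of_sum_ne_zero h1
  rw [Finset.mem_filter, Finset.mem_Icc] at hc
  refine ⟨c, j, hc.1.1, hc.1.2, hj, hc.2, ?_⟩
  have h3 := left_ne_zero_of_mul (right_ne_zero_of_mul h2)
  by_contra hcon
  rw [not_le] at hcon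
  apply h3
  rw [hρ.supp _ ?_, mul_zero, Complex.ofReal_zero]
  rw [abs_div, abs_of_pos hy, lt_div_iff₀ hy]
  exact hcon

theorem gd_bdd {T : ℝ} {ρ : ℝ → ℝ} (hρ : Ker T ρ) (N Q : ℕ) (hN : 1 ≤ N) (w : ℕ → ℕ → ℂ) :
    ∃ M : ℝ, 0 ≤ M ∧ ∀ x y : ℝ, 0 < y → ‖gph N Q w ρ x y‖ ≤ M := by
  obtain ⟨R0, hR0, hR⟩ := mbd_rho_bdd hρ
  have hN0 : (0 : ℝ) < N := by exact_mod_cast hN
  have hs : 0 < Real.sqrt N := Real.sqrt_pos.2 hN0
  refine ⟨∑ c ∈ Finset.Icc 1 Q, ∑ j ∈ RR c, ‖w c j‖ * ((c * Real.sqrt N / 2) * R0), ?_, ?_⟩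
  · exact Finset.sum_nonneg fun c _ => Finset.sum_nonneg fun j _ =>
      mul_nonneg (norm_nonneg _) (by positivity)
  intro x y hy
  rw [gd_ph]
  refine (norm_sum_le _ _).trans (Finset.sum_le_sum fun c hc => ?_)
  have hc1 : (1 : ℝ) ≤ c := by exact_mod_cast (Finset.mem_Icc.1 hc).1
  split_ifs with hif
  · refine (norm_sum_le _ _).trans (Finset.sum_le_sum fun j _ => ?_)
    rw [norm_mul]
    apply mul_le_mul_of_nonneg_left _ (norm_nonneg _)
    set t : ℝ := (x - (j : ℝ) / c) / y with ht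
    rw [norm_mul, Complex.norm_real, Real.norm_eq_abs, abs_mul, abs_of_pos (inv_pos.2 hy),
      abs_of_nonneg (hρ.nonneg t), mul_assoc]
    apply mul_le_mul _ (hR t) (mul_nonneg (hρ.nonneg t) (norm_nonneg _)) (by positivity)
    rw [inv_le_comm₀ hy (by positivity)]
    refine le_trans (le_of_eq ?_) hif.le
    unfold rq
    field_simp
  · rw [norm_zero]
    exact Finset.sum_nonneg fun j _ => mul_nonneg (norm_nonneg _) (by positivity)

theorem gd_WW (Q : ℕ) (w : ℕ → ℕ → ℂ) : ∃ M : ℝ, 0 ≤ M ∧ ∀ n : ℤ, ‖gT Q w 0 n‖ ≤ M := by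
  refine ⟨∑ c ∈ (Finset.Icc 1 Q).filter (fun c : ℕ => (0 : ℝ) < c), ∑ j ∈ RR c, ‖w c j‖, ?_,
    fun n => ?_⟩
  · exact Finset.sum_nonneg fun c _ => Finset.sum_nonneg fun j _ => norm_nonneg _
  unfold gT
  refine (norm_sum_le _ _).trans (Finset.sum_le_sum fun c _ => ?_)
  refine (norm_sum_le _ _).trans (Finset.sum_le_sum fun j _ => ?_)
  rw [norm_mul]
  have h1 : ‖cexp (2 * Real.pi * Complex.I * n * (((j : ℝ) / c : ℝ) : ℂ))‖ = 1 := by
    have e : (2 * Real.pi * Complex.I * n * (((j : ℝ) / c : ℝ) : ℂ)) =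
        ((2 * Real.pi * n * ((j : ℝ) / c) : ℝ) : ℂ) * Complex.I := by
      push_cast
      ring
    rw [e, Complex.norm_exp_ofReal_mul_I]
  rw [h1, mul_one]

theorem gd_B_summable {T : ℝ} {ρ : ℝ → ℝ} (hρ : Ker T ρ) (N Q : ℕ) (hN : 1 ≤ N)
    (w : ℕ → ℕ → ℂ) :
    Summable (fun n : ℕ => ‖gT Q w 0 n‖ ^ 2 * sgm ρ (n * (2 / Real.sqrt N)) ^ 2 /
      (Real.pi * n)) := by
  obtain ⟨C, hC⟩ := hρ.dec
  obtain ⟨M, hM0, hM⟩ := gd_WW Q w
  have hN0 : (0 : ℝ) < N := by exact_mod_cast hN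
  have hs : 0 < Real.sqrt N := Real.sqrt_pos.2 hN0
  have hpi := Real.pi_pos
  set ys : ℝ := 2 / Real.sqrt N with hys
  have hys0 : 0 < ys := by positivity
  have hsum : Summable (fun n : ℕ => (M ^ 2 * (C / ys) ^ 2 / Real.pi) * (1 / (n : ℝ) ^ 3)) :=
    (Real.summable_one_div_nat_pow.2 (by norm_num)).mul_left _
  refine Summable.of_nonneg_of_le (fun n => by positivity) (fun n => ?_) hsum
  rcases Nat.eq_zero_or_pos n with hn | hn
  · subst hn; simp
  · have hn0 : (0 : ℝ) < n := by exact_mod_cast hn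
    have h1 : ‖gT Q w 0 n‖ ^ 2 ≤ M ^ 2 := pow_le_pow_left₀ (norm_nonneg _) (hM n) 2
    have h2 : sgm ρ (n * ys) ^ 2 ≤ (C / (n * ys)) ^ 2 := by
      rw [← sq_abs]; exact pow_le_pow_left₀ (abs_nonneg _) (hC _ (by positivity)) 2
    calc ‖gT Q w 0 n‖ ^ 2 * sgm ρ (n * ys) ^ 2 / (Real.pi * n)
        ≤ M ^ 2 * (C / (n * ys)) ^ 2 / (Real.pi * n) := by
          apply div_le_div_of_nonneg_right _ (by positivity)
          exact mul_le_mul h1 h2 (sq_nonneg _) (sq_nonneg _)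
      _ = (M ^ 2 * (C / ys) ^ 2 / Real.pi) * (1 / (n : ℝ) ^ 3) := by
          field_simp

section
variable {N : ℕ} [Fact N.Prime]

/-- the set where the kernel does not vanish -/
def gd_set (N Q : ℕ) (w : ℕ → ℕ → ℂ) (ρ : ℝ → ℝ) : Set ℂ :=
  {z : ℂ | 0 < z.im ∧ z.im < 2 / Real.sqrt N} ∩ (fun z : ℂ => gph N Q w ρ z.re z.im) ⁻¹' {0}ᶜ

theorem gd_set_meas (N Q : ℕ) (w : ℕ → ℕ → ℂ) {ρ : ℝ → ℝ} (hρ : Continuous ρ) :
    MeasurableSet (gd_set N Q w ρ) := by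
  have hmS : MeasurableSet {z : ℂ | 0 < z.im ∧ z.im < 2 / Real.sqrt N} :=
    (measurableSet_lt measurable_const Complex.measurable_im).inter
      (measurableSet_lt Complex.measurable_im measurable_const)
  have h0 : Measurable (fun z : ℂ => (z.re, z.im)) :=
    Complex.measurable_re.prodMk Complex.measurable_im
  have hP : Measurable (fun z : ℂ => gph N Q w ρ z.re z.im) := mbd_comp (gd_meas N Q w hρ) h0
  exact MeasurableSet.inter hmS (hP (measurableSet_singleton (0 : ℂ)).compl)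

theorem gd_set_prop {T : ℝ} {ρ : ℝ → ℝ} (hρ : Ker T ρ) {Q : ℕ}
    (hQ : 100 * T * Q ≤ Real.sqrt N) (w : ℕ → ℕ → ℂ) : ∀ z ∈ gd_set N Q w ρ,
      -(1 / (2 * (Q : ℝ))) ≤ z.re ∧ z.re < -(1 / (2 * (Q : ℝ))) + 1 ∧ 0 < z.im ∧
      z.im < 2 / Real.sqrt N ∧ Ford N (UpperHalfPlane.ofComplex z) := by
  rintro z ⟨⟨h1, h2⟩, h3⟩
  obtain ⟨q, j, hq, hqQ, hj, h4, h5⟩ := gd_supp hρ h1 h3
  obtain ⟨h6, h7, h8⟩ := wedge_ford (N := N) hρ.T1 hQ hq hqQ hj h5 h4 h2
  exact ⟨h6, h7, h1, h2, h8⟩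

theorem gd_P_int {T : ℝ} {ρ : ℝ → ℝ} (hρ : Ker T ρ) {Q : ℕ} (hQ1 : 1 ≤ Q)
    (hQ : 100 * T * Q ≤ Real.sqrt N) (w : ℕ → ℕ → ℂ) :
    Integrable (fun p : ℝ × ℝ => (Set.Ioo 0 (2 / Real.sqrt N)).indicator
      (fun y => ‖gph N Q w ρ p.1 y‖ ^ 2) p.2) := by
  have hN1 : 1 ≤ N := (Fact.out : N.Prime).one_lt.le
  obtain ⟨M, hM0, hM⟩ := gd_bdd hρ N Q hN1 w
  have hQ0 : (1 : ℝ) ≤ Q := by exact_mod_cast hQ1
  set K : Set (ℝ × ℝ) := Set.Icc (-1) 1 ×ˢ Set.Icc 0 (2 / Real.sqrt N) with hK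
  have hKm : MeasurableSet K := measurableSet_Icc.prod measurableSet_Icc
  have hKf : volume K ≠ (⊤ : ℝ≥0∞) := (isCompact_Icc.prod isCompact_Icc).measure_lt_top.ne
  have hmeas : Measurable (fun p : ℝ × ℝ => (Set.Ioo 0 (2 / Real.sqrt N)).indicator
      (fun y => ‖gph N Q w ρ p.1 y‖ ^ 2) p.2) := by
    have e : (fun p : ℝ × ℝ => (Set.Ioo 0 (2 / Real.sqrt N)).indicator
      (fun y => ‖gph N Q w ρ p.1 y‖ ^ 2) p.2) =
      (Prod.snd ⁻¹' (Set.Ioo 0 (2 / Real.sqrt N)) : Set (ℝ × ℝ)).indicator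
        (fun p => ‖gph N Q w ρ p.1 p.2‖ ^ 2) := by
      funext p
      by_cases hp : p.2 ∈ Set.Ioo 0 (2 / Real.sqrt N)
      · rw [Set.indicator_of_mem hp, Set.indicator_of_mem (by exact hp)]
      · rw [Set.indicator_of_notMem hp, Set.indicator_of_notMem (by exact hp)]
    rw [e]
    exact ((gd_meas N Q w hρ.cont).norm.pow_const 2).indicator
      (measurable_snd measurableSet_Ioo)
  have hdom : Integrable (K.indicator (fun _ : ℝ × ℝ => M ^ 2)) :=
    (integrable_indicator_iff hKm).2 (integrableOn_const hKf)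
  refine hdom.mono' hmeas.aestronglyMeasurable (Eventually.of_forall fun p => ?_)
  by_cases hp : p.2 ∈ Set.Ioo 0 (2 / Real.sqrt N)
  · rw [Set.indicator_of_mem hp]
    by_cases hne : gph N Q w ρ p.1 p.2 = 0
    · rw [hne]
      simp only [norm_zero, ne_eq, OfNat.ofNat_ne_zero, not_false_eq_true, zero_pow]
      exact Set.indicator_nonneg (fun _ _ => sq_nonneg _) _
    · have hz : (⟨p.1, p.2⟩ : ℂ) ∈ gd_set N Q w ρ := ⟨hp, hne⟩
      obtain ⟨h1, h2, h3, h4, _⟩ := gd_set_prop hρ hQ w _ hz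
      have h5 : 1 / (2 * (Q : ℝ)) ≤ 1 / 2 := by
        apply one_div_le_one_div_of_le (by norm_num); linarith
      have h6 : 0 ≤ 1 / (2 * (Q : ℝ)) := by positivity
      have hpK : p ∈ K := by
        refine ⟨⟨?_, ?_⟩, ⟨h3.le, h4.le⟩⟩
        · simp only at h1; linarith
        · simp only at h2; linarith
      rw [Set.indicator_of_mem hpK, norm_pow, norm_norm]
      exact pow_le_pow_left₀ (norm_nonneg _) (hM _ _ hp.1) 2
  · rw [Set.indicator_of_notMem hp, norm_zero]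
    exact Set.indicator_nonneg (fun _ _ => sq_nonneg _) _

/-- the bound for the main part -/
theorem gmain_bound {W : S2 N →ₗ[ℂ] S2 N} (hW : IsFricke W) {g : S2 N} (hg : W g = -g) {T : ℝ}
    {ρ : ℝ → ℝ} (hρ : Ker T ρ) {Q : ℕ} (hQ1 : 1 ≤ Q) (hQ : 100 * T * Q ≤ Real.sqrt N)
    (w : ℕ → ℕ → ℂ) :
    ‖(∫ z in {z : ℂ | 0 < z.im ∧ z.im < 2 / Real.sqrt N},
        g (UpperHalfPlane.ofComplex z) * gph N Q w ρ z.re z.im) +
      (∑' n : ℕ, co g n / (2 * Real.pi * n) *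
        ((Real.exp (-2 * Real.pi * n * (2 / Real.sqrt N)) * sgm ρ (n * (2 / Real.sqrt N)) : ℝ) : ℂ) *
          gT Q w 0 n)‖ ≤
      Real.sqrt ((gHS N Q w ρ + gBS N Q w ρ) / 2) * Real.sqrt (nr g) := by
  have hN1 : 1 ≤ N := (Fact.out : N.Prime).one_lt.le
  have hN0 : (0 : ℝ) < N := by exact_mod_cast hN1
  have hs : 0 < Real.sqrt N := Real.sqrt_pos.2 hN0
  have hQ0 : (1 : ℝ) ≤ Q := by exact_mod_cast hQ1
  have hys : 0 < 2 / Real.sqrt N := by positivity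
  set B := gd_set N Q w ρ with hBdef
  have hBm : MeasurableSet B := gd_set_meas N Q w hρ.cont
  have hBp := gd_set_prop hρ hQ w
  obtain ⟨hgint, hmain⟩ := main_half hW hg hBm hBp
  have hSm : MeasurableSet {z : ℂ | 0 < z.im ∧ z.im < 2 / Real.sqrt N} :=
    (measurableSet_lt measurable_const Complex.measurable_im).inter
      (measurableSet_lt Complex.measurable_im measurable_const)
  have hBS : B ⊆ {z : ℂ | 0 < z.im ∧ z.im < 2 / Real.sqrt N} := fun z hz => hz.1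
  have hzero : ∀ z ∈ {z : ℂ | 0 < z.im ∧ z.im < 2 / Real.sqrt N} \ B,
      gph N Q w ρ z.re z.im = 0 := by
    rintro z ⟨h1, h2⟩
    by_contra hne
    exact h2 ⟨h1, hne⟩
  -- the norm of the kernel
  have hb1 : ∫ z in B, ‖gph N Q w ρ z.re z.im‖ ^ 2 = gBS N Q w ρ := by
    rw [gBS, ← mbd_fub (F := fun x y => ‖gph N Q w ρ x y‖ ^ 2) (gd_P_int hρ hQ1 hQ w)]
    exact (setIntegral_eq_of_subset_of_forall_sdiff_eq_zero hSm hBS fun z hz => by
      rw [hzero z hz]; simp).symm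
  have hPint : IntegrableOn (fun z : ℂ => ‖gph N Q w ρ z.re z.im‖ ^ 2) B := by
    obtain ⟨M, hM0, hM⟩ := gd_bdd hρ N Q hN1 w
    have h0 : Measurable (fun z : ℂ => (z.re, z.im)) :=
      Complex.measurable_re.prodMk Complex.measurable_im
    have hP : Measurable (fun z : ℂ => gph N Q w ρ z.re z.im) :=
      mbd_comp (gd_meas N Q w hρ.cont) h0
    refine Measure.integrableOn_of_bounded (M := M ^ 2) ?_
      (hP.norm.pow_const 2).aestronglyMeasurable ?_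
    · have hK : IsCompact (Set.Icc (-1 : ℝ) 1 ×ℂ Set.Icc (0 : ℝ) (2 / Real.sqrt N)) :=
        isCompact_Icc.reProdIm isCompact_Icc
      refine ne_of_lt (lt_of_le_of_lt (measure_mono ?_) hK.measure_lt_top)
      intro z hz
      obtain ⟨h1, h2, h3, h4, _⟩ := hBp z hz
      have h5 : 1 / (2 * (Q : ℝ)) ≤ 1 / 2 := by
        apply one_div_le_one_div_of_le (by norm_num); linarith
      have h6 : 0 ≤ 1 / (2 * (Q : ℝ)) := by positivity
      exact ⟨⟨by linarith, by linarith⟩, ⟨h3.le, h4.le⟩⟩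
    · refine (ae_restrict_iff' hBm).2 (Eventually.of_forall fun z hz => ?_)
      rw [norm_pow, norm_norm]
      exact pow_le_pow_left₀ (norm_nonneg _) (hM _ _ (hBp z hz).2.2.1) 2
  -- the first term
  have hI : ∀ l : ℝ, 0 < l → ‖∫ z in {z : ℂ | 0 < z.im ∧ z.im < 2 / Real.sqrt N},
        g (UpperHalfPlane.ofComplex z) * gph N Q w ρ z.re z.im‖ ≤
      (l * (∫ z in B, ‖g (UpperHalfPlane.ofComplex z)‖ ^ 2) + gBS N Q w ρ / l) / 2 := by
    intro l hl
    rw [setIntegral_eq_of_subset_of_forall_sdiff_eq_zero hSm hBS fun z hz => by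
      rw [hzero z hz, mul_zero]]
    have hb : Integrable (fun z : ℂ => (l * ‖g (UpperHalfPlane.ofComplex z)‖ ^ 2 +
        ‖gph N Q w ρ z.re z.im‖ ^ 2 / l) / 2) (volume.restrict B) :=
      ((hgint.const_mul l).add (hPint.div_const l)).div_const 2
    refine (norm_integral_le_of_norm_le hb (Eventually.of_forall fun z => ?_)).trans (le_of_eq ?_)
    · rw [norm_mul]
      set u := ‖g (UpperHalfPlane.ofComplex z)‖
      set v := ‖gph N Q w ρ z.re z.im‖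
      have h1 : 0 ≤ (l * u - v) ^ 2 / l := by positivity
      have h2 : (l * u - v) ^ 2 / l = l * u ^ 2 - 2 * (u * v) + v ^ 2 / l := by
        field_simp
        ring
      rw [h2] at h1
      linarith
    · rw [integral_div, integral_add (hgint.const_mul l) (hPint.div_const l), integral_const_mul,
        integral_div, hb1]
  -- the second term
  have hA := (strip_sum g hys).1
  have hB2 := gd_B_summable hρ N Q hN1 w
  have hJ : ∀ l : ℝ, 0 < l → ‖∑' n : ℕ, co g n / (2 * Real.pi * n) *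
        ((Real.exp (-2 * Real.pi * n * (2 / Real.sqrt N)) * sgm ρ (n * (2 / Real.sqrt N)) : ℝ) :
          ℂ) * gT Q w 0 n‖ ≤
      (l * (∑' n : ℕ, ‖co g n‖ ^ 2 / (4 * Real.pi * n) *
        Real.exp (-4 * Real.pi * n * (2 / Real.sqrt N))) + gHS N Q w ρ / l) / 2 := by
    intro l hl
    refine tsum_of_norm_bounded (((hA.hasSum.mul_left l).add (hB2.hasSum.div_const l)).div_const 2)
      fun n => ?_
    have h := mbd_term (co g n) (n := n) (e := Real.exp (-2 * Real.pi * n * (2 / Real.sqrt N)))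
      (s := sgm ρ (n * (2 / Real.sqrt N)) * ‖gT Q w 0 n‖) (l := l) (y := 2 / Real.sqrt N) hl rfl
    refine le_trans (le_of_eq ?_) (h.trans (le_of_eq ?_))
    · rw [← mul_assoc, Complex.ofReal_mul (Real.exp _ * _), ← mul_assoc, norm_mul _ (gT Q w 0 n),
        norm_mul _ ((‖gT Q w 0 n‖ : ℝ) : ℂ), Complex.norm_real, norm_norm]
    · rw [mul_pow]
      ring
  have hopt := mbd_opt (X := ‖(∫ z in {z : ℂ | 0 < z.im ∧ z.im < 2 / Real.sqrt N},
        g (UpperHalfPlane.ofComplex z) * gph N Q w ρ z.re z.im) +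
      (∑' n : ℕ, co g n / (2 * Real.pi * n) *
        ((Real.exp (-2 * Real.pi * n * (2 / Real.sqrt N)) * sgm ρ (n * (2 / Real.sqrt N)) : ℝ) :
          ℂ) * gT Q w 0 n)‖)
    (a := (∫ z in B, ‖g (UpperHalfPlane.ofComplex z)‖ ^ 2) +
      ∑' n : ℕ, ‖co g n‖ ^ 2 / (4 * Real.pi * n) *
        Real.exp (-4 * Real.pi * n * (2 / Real.sqrt N)))
    (b := gBS N Q w ρ + gHS N Q w ρ) ?_ ?_ ?_
  · refine hopt.trans ?_
    have hb0 : 0 ≤ gBS N Q w ρ + gHS N Q w ρ := by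
      refine add_nonneg ?_ (tsum_nonneg fun n => by positivity)
      rw [← hb1]
      exact integral_nonneg fun z => by positivity
    rw [← Real.sqrt_mul' _ hb0, ← Real.sqrt_mul (by linarith)]
    apply Real.sqrt_le_sqrt
    have h1 : ((∫ z in B, ‖g (UpperHalfPlane.ofComplex z)‖ ^ 2) +
      ∑' n : ℕ, ‖co g n‖ ^ 2 / (4 * Real.pi * n) *
        Real.exp (-4 * Real.pi * n * (2 / Real.sqrt N))) ≤ nr g / 2 := by linarith
    have h2 := mul_le_mul_of_nonneg_right h1 hb0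
    linarith
  · exact add_nonneg (integral_nonneg fun z => by positivity) (tsum_nonneg fun n => by positivity)
  · refine add_nonneg ?_ (tsum_nonneg fun n => by positivity)
    rw [← hb1]
    exact integral_nonneg fun z => by positivity
  · intro l hl
    refine (norm_add_le _ _).trans ((add_le_add (hI l hl) (hJ l hl)).trans (le_of_eq ?_))
    ring

end

end Pool.Agent.TK
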